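import Mathlib

/-!
# Coprime automorphisms with involutions `x⁻¹ x^a`
-/

namespace Pool.Agent.Results.MP_cb0591_al.OrderTwo

section

variable {G : Type*} [Group G] (a : G ≃* G)

/-- the subgroup generated by the `x⁻¹ x^a` -/
def H : Subgroup G := Subgroup.closure {z | ∃ y, z = y⁻¹ * a y}

variable {a}

lemma mem_H (y : G) : y⁻¹ * a y ∈ H a := Subgroup.subset_closure ⟨y, rfl⟩

lemma inv_self {z : G} (h : z ^ 2 = 1) : z⁻¹ = z := by
  rw [inv_eq_iff_mul_eq_one, ← pow_two, h]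

lemma gen_comm (h2 : ∀ x : G, (x⁻¹ * a x) ^ 2 = 1) (x y : G) :
    (x⁻¹ * a x) * (y⁻¹ * a y) = (y⁻¹ * a y) * (x⁻¹ * a x) := by
  -- `(x w)⁻¹ a (x w) = w⁻¹ (x⁻¹ a x) w * (w⁻¹ a w)` with `w = y⁻¹`
  have key : ∀ w : G, (w⁻¹ * (x⁻¹ * a x) * w) * (w⁻¹ * a w) =
      (w⁻¹ * a w) * (w⁻¹ * (x⁻¹ * a x) * w) := by
    intro w
    have e : (x * w)⁻¹ * a (x * w) = (w⁻¹ * (x⁻¹ * a x) * w) * (w⁻¹ * a w) := by
      rw [map_mul]; group
    have h3 := h2 (x * w)
    rw [e] at h3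
    have h4 : (w⁻¹ * (x⁻¹ * a x) * w) ^ 2 = 1 := by
      have : (w⁻¹ * (x⁻¹ * a x) * w) ^ 2 = w⁻¹ * (x⁻¹ * a x) ^ 2 * w := by
        rw [pow_two, pow_two]; group
      rw [this, h2 x]; group
    have h5 := inv_self h3
    rw [mul_inv_rev, inv_self h4, inv_self (h2 w)] at h5
    exact h5.symm
  have h6 := key y⁻¹
  -- conjugate back by y
  have e1 : ∀ s : G, y⁻¹ * ((y⁻¹)⁻¹ * s * y⁻¹) * y = s := by intro s; group
  have e2 : y⁻¹ * ((y⁻¹)⁻¹ * a y⁻¹) * y = (y⁻¹ * a y)⁻¹ := by rw [map_inv]; group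
  have h7 := congrArg (fun z => y⁻¹ * z * y) h6
  beta_reduce at h7
  have e3 : ∀ s t : G, y⁻¹ * (s * t) * y = (y⁻¹ * s * y) * (y⁻¹ * t * y) := by
    intro s t; group
  rw [e3 ((y⁻¹)⁻¹ * (x⁻¹ * a x) * y⁻¹) ((y⁻¹)⁻¹ * a y⁻¹),
    e3 ((y⁻¹)⁻¹ * a y⁻¹) ((y⁻¹)⁻¹ * (x⁻¹ * a x) * y⁻¹), e1, e2, inv_self (h2 y)] at h7
  exact h7

lemma H_comm (h2 : ∀ x : G, (x⁻¹ * a x) ^ 2 = 1) {s t : G} (hs : s ∈ H a) (ht : t ∈ H a) :
    s * t = t * s := by
  have h1 : ∀ y : G, ∀ s ∈ H a, s * (y⁻¹ * a y) = (y⁻¹ * a y) * s := by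
    intro y s hs
    have : H a ≤ Subgroup.centralizer {y⁻¹ * a y} := by
      apply (Subgroup.closure_le _).2
      rintro _ ⟨x, rfl⟩
      rw [SetLike.mem_coe, Subgroup.mem_centralizer_singleton_iff]
      exact gen_comm h2 x y
    exact Subgroup.mem_centralizer_singleton_iff.1 (this hs)
  have h3 : H a ≤ Subgroup.centralizer {s} := by
    apply (Subgroup.closure_le _).2
    rintro _ ⟨y, rfl⟩
    rw [SetLike.mem_coe, Subgroup.mem_centralizer_singleton_iff]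
    exact (h1 y s hs).symm
  exact (Subgroup.mem_centralizer_singleton_iff.1 (h3 ht)).symm

lemma H_sq (h2 : ∀ x : G, (x⁻¹ * a x) ^ 2 = 1) {s : G} (hs : s ∈ H a) : s ^ 2 = 1 := by
  unfold H at hs
  induction hs using Subgroup.closure_induction with
  | mem x hx => obtain ⟨y, rfl⟩ := hx; exact h2 y
  | one => simp
  | mul x y hx hy ihx ihy =>
    have := H_comm h2 (a := a) hx hy
    rw [(show Commute x y from this).mul_pow, ihx, ihy, one_mul]
  | inv x hx ih => rw [inv_pow, ih, inv_one]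

lemma H_conj {s : G} (hs : s ∈ H a) (w : G) : w⁻¹ * s * w ∈ H a := by
  unfold H at hs
  induction hs using Subgroup.closure_induction with
  | mem x hx =>
    obtain ⟨y, rfl⟩ := hx
    have e : w⁻¹ * (y⁻¹ * a y) * w = ((y * w)⁻¹ * a (y * w)) * (w⁻¹ * a w)⁻¹ := by
      rw [map_mul]; group
    rw [e]
    exact (H a).mul_mem (mem_H _) ((H a).inv_mem (mem_H _))
  | one => simp [(H a).one_mem]
  | mul x y hx hy ihx ihy =>
    have e : w⁻¹ * (x * y) * w = (w⁻¹ * x * w) * (w⁻¹ * y * w) := by group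
    rw [e]; exact (H a).mul_mem ihx ihy
  | inv x hx ih =>
    have e : w⁻¹ * x⁻¹ * w = (w⁻¹ * x * w)⁻¹ := by group
    rw [e]; exact (H a).inv_mem ih

lemma step (h2 : ∀ x : G, (x⁻¹ * a x) ^ 2 = 1) (x : G) (k : ℕ) :
    ∃ b ∈ H a, ∃ e ∈ H a, (x⁻¹ * a x) * a b = e ∧ e * b = x⁻¹ * a^[2 * k + 1] x := by
  induction k with
  | zero => exact ⟨1, (H a).one_mem, x⁻¹ * a x, mem_H x, by simp, by simp⟩
  | succ k ih =>
    obtain ⟨b, hb, e, he, h1, h3⟩ := ih
    obtain ⟨y, hy⟩ : ∃ y, y = a^[2 * k + 1] x := ⟨_, rfl⟩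
    have hav : a (y⁻¹ * a y) ∈ H a := by
      rw [map_mul, map_inv]; exact mem_H _
    refine ⟨b * (y⁻¹ * a y), (H a).mul_mem hb (mem_H _), e * a (y⁻¹ * a y),
      (H a).mul_mem he hav, ?_, ?_⟩
    · rw [map_mul, ← mul_assoc, h1]
    · have c1 : a (y⁻¹ * a y) * b = b * a (y⁻¹ * a y) := H_comm h2 hav hb
      have c2 : a (y⁻¹ * a y) * (y⁻¹ * a y) = (y⁻¹ * a y) * a (y⁻¹ * a y) := H_comm h2 hav (mem_H _)
      have e1 : e * a (y⁻¹ * a y) * (b * (y⁻¹ * a y)) =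
          (e * b) * ((y⁻¹ * a y) * a (y⁻¹ * a y)) := by
        rw [← c2, mul_assoc, ← mul_assoc (a (y⁻¹ * a y)) b, c1]
        simp only [mul_assoc]
      rw [e1, h3, ← hy, show 2 * (k + 1) + 1 = (2 * k + 1) + 1 + 1 by ring,
        Function.iterate_succ_apply', Function.iterate_succ_apply', ← hy, map_mul, map_inv]
      group

lemma pow_mem {b : G} (hb : b ∈ H a) (c : G) (k : ℕ) : (c ^ k)⁻¹ * (c * b) ^ k ∈ H a := by
  induction k with
  | zero => simp [(H a).one_mem]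
  | succ k ih =>
    have e : (c ^ (k + 1))⁻¹ * (c * b) ^ (k + 1) = (c⁻¹ * ((c ^ k)⁻¹ * (c * b) ^ k) * c) * b := by
      rw [pow_succ, pow_succ, mul_inv_rev]; simp only [mul_assoc]
    rw [e]
    exact (H a).mul_mem (H_conj ih c) hb

end

/-- **Involutions `x⁻¹ x^a`.** Let `a` be an automorphism of a finite group `G` with `a ^ n = 1`,
`n` coprime to `|G|`, such that all elements `x⁻¹ x^a` have order dividing `2` and all elements
fixed by `a` have order dividing `m`. Then the exponent of `G` divides `2 m`. -/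
theorem result (G : Type*) [Group G] [Finite G] (a : G ≃* G) (n m : ℕ)
    (han : ∀ x, a^[n] x = x) (hcop : Nat.Coprime n (Nat.card G))
    (h1 : ∀ x, a x = x → x ^ m = 1) (h2 : ∀ x, (x⁻¹ * a x) ^ 2 = 1) :
    Monoid.exponent G ∣ 2 * m := by
  apply Monoid.exponent_dvd_of_forall_pow_eq_one
  intro x
  rcases Nat.even_or_odd n with he | ho
  · -- the order of `G` is odd
    have hodd : Nat.Coprime 2 (Nat.card G) := Nat.Coprime.coprime_dvd_left he.two_dvd hcop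
    have triv : ∀ z : G, z ^ 2 = 1 → z = 1 := by
      intro z hz
      have h3 : orderOf z ∣ 2 := orderOf_dvd_of_pow_eq_one hz
      have h4 : orderOf z ∣ Nat.card G := orderOf_dvd_natCard z
      have h5 := Nat.dvd_gcd h3 h4
      rw [hodd] at h5
      exact orderOf_eq_one_iff.1 (Nat.dvd_one.1 h5)
    have h3 := triv _ (h2 x)
    have h4 : a x = x := (inv_mul_eq_one.1 h3).symm
    rw [mul_comm, pow_mul, h1 x h4, one_pow]
  · obtain ⟨k, rfl⟩ := ho
    obtain ⟨b, hb, e, he, h3, h4⟩ := step h2 x k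
    rw [han, inv_mul_cancel] at h4
    have hbb := inv_self (H_sq h2 hb)
    have h5 : e = b := by rw [eq_inv_of_mul_eq_one_left h4, hbb]
    rw [h5] at h3
    have h6 : a (x * b) = x * b := by
      rw [map_mul]
      calc a x * a b = x * ((x⁻¹ * a x) * a b) := by group
        _ = x * b := by rw [h3]
    have h7 := h1 _ h6
    obtain ⟨c, hc⟩ : ∃ c, c = x * b := ⟨_, rfl⟩
    rw [← hc] at h7
    have hx : x = c * b := by rw [hc, mul_assoc, ← pow_two, H_sq h2 hb, mul_one]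
    have h8 : x ^ m ∈ H a := by
      have := pow_mem (a := a) hb c m
      rwa [h7, inv_one, one_mul, ← hx] at this
    rw [mul_comm, pow_mul]
    exact H_sq h2 h8

end Pool.Agent.Results.MP_cb0591_al.OrderTwo
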